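import Mathlib
import Pool.Agent.H.MP_b3e27a_co.Count
import Pool.Agent.H.MP_b3e27a_co.Arith
import Pool.Agent.H.MP_b3e27a_co.Ex

set_option autoImplicit false

namespace Pool.Agent.Results.MP_b3e27a_co.Max

open Finset Real
open scoped Classical

noncomputable def eus {n : ℕ} (G : SimpleGraph (Fin n)) : ℝ :=
  (∑ u, ∑ v ∈ G.neighborFinset u,
    √((G.degree u : ℝ) ^ 2 + (G.degree v : ℝ) ^ 2 + G.degree u * G.degree v)) / 2

def Uni {n : ℕ} (G : SimpleGraph (Fin n)) : Prop :=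
  G.Connected ∧ G.edgeFinset.card = n ∧ ∀ v, G.degree v ≤ 4

noncomputable def M (n : ℕ) : ℝ :=
  if n = 3 then 3 * √12
  else if n = 4 then √12 + √13 + 2 * √19
  else if n = 5 then √12 + 2 * √21 + 2 * √28
  else if n = 6 then √13 + √19 + 2 * √21 + √28 + √37
  else if n = 8 then √13 + 4 * √21 + 2 * √37 + √48
  else if n % 3 = 0 then (2 * n / 3) * √21 + (n / 3) * √48
  else if n % 3 = 1 then (2 * (n - 1) / 3) * √21 + 2 * √28 + ((n - 4) / 3) * √48
  else ((2 * n - 1) / 3) * √21 + 3 * √37 + ((n - 8) / 3) * √48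

def Ext {n : ℕ} (G : SimpleGraph (Fin n)) : Prop :=
  if n = 3 then True
  else if n = 4 then ∃ v, G.degree v = 3
  else if n = 5 then ∃ v, G.degree v = 4
  else if n = 6 then (∃ v, G.degree v = 3) ∧ ∃ v, G.degree v = 4
  else (∀ u v, (G.degree u = 2 ∨ G.degree u = 3) → (G.degree v = 2 ∨ G.degree v = 3) → u = v) ∧
    (n = 8 ∨ ∀ u v, G.Adj u v → (G.degree u = 2 ∨ G.degree u = 3) → G.degree v = 4)

open Pool.Agent.H.MP_b3e27a_co in
lemma main {n : ℕ} (hn : 3 ≤ n) (G : SimpleGraph (Fin n)) (h : Uni G) :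
    (Ext G → eus G = M n) ∧ (¬ Ext G → eus G < M n) := by
  obtain ⟨hc, he, h4⟩ := h
  have hn' : 3 ≤ Fintype.card (Fin n) := by simpa using hn
  have hd : ∀ v, 1 ≤ G.degree v ∧ G.degree v ≤ 4 := fun v => ⟨deg_pos G hc hn' v, h4 v⟩
  have z := m11 G hc hn'
  have r1 := row G hd 1 (by decide)
  have r2 := row G hd 2 (by decide)
  have r3 := row G hd 3 (by decide)
  have r4 := row G hd 4 (by decide)
  rw [m_symm G 2 1] at r2
  rw [m_symm G 3 1, m_symm G 3 2] at r3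
  rw [m_symm G 4 1, m_symm G 4 2, m_symm G 4 3] at r4
  have s1 := vsum G hd fun _ => 1
  have s2 := vsum G hd fun i => i
  rw [G.sum_degrees_eq_twice_card_edges, he] at s2
  simp only [sum_const, card_univ, Fintype.card_fin, smul_eq_mul] at s1
  have hE := sum_split G hd fun i j => √((i : ℝ) ^ 2 + (j : ℝ) ^ 2 + i * j)
  rw [show Icc 1 4 = {1, 2, 3, 4} by decide] at hE
  have key := arith n (m G 1 2) (m G 1 3) (m G 1 4) (m G 2 2) (m G 2 3) (m G 2 4) (m G 3 3)
    (m G 3 4) (m G 4 4) (N G 1) (N G 2) (N G 3) (N G 4) hn (by omega) r2 r3 r4 (by omega)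
    (by omega) (m_le' G 2) (m_le G 2 3) (m_le G 2 4) (m_le' G 3) (m_le G 3 4) (m_le' G 4) (eus G)
    (by
      rw [eus, hE]
      simp only [mem_insert, mem_singleton, OfNat.one_ne_ofNat, or_self, not_false_eq_true,
        sum_insert, Nat.reduceEqDiff, sum_singleton, m_symm G 2 1, m_symm G 3 1, m_symm G 3 2,
        m_symm G 4 1, m_symm G 4 2, m_symm G 4 3, z]
      norm_num
      ring)
  have hx : Ext G ↔ Ex n (N G 2) (N G 3) (N G 4)
      (m G 1 2 + m G 1 3 + m G 2 2 + m G 2 3 + m G 3 3) := by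
    unfold Ext Ex
    rw [N_pos G 3, N_pos G 4, N23 G, nb4 G hd]
  rw [hx]
  exact key

open Pool.Agent.H.MP_b3e27a_co in
lemma ex {n : ℕ} (hn : 3 ≤ n) : ∃ G : SimpleGraph (Fin n), Uni G ∧ Ext G := by
  obtain ⟨t, ht, h⟩ : ∃ t, t ≤ 2 ∧ ((n = 5 ∧ t = 0) ∨ (n ≠ 5 ∧ (n + 2 - t) % 3 = 0)) := by
    by_cases h5 : n = 5
    · exact ⟨0, by omega, Or.inl ⟨h5, rfl⟩⟩
    · exact ⟨(n + 2) % 3, by omega, Or.inr ⟨h5, by omega⟩⟩
  refine ⟨Gr n t hn ht, ⟨conn n t hn ht, edges n t hn ht, fun v => ?_⟩, ?_⟩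
  · rw [deg]; unfold dg; split_ifs <;> omega
  · unfold Ext
    simp only [deg, adj_iff]
    split_ifs with h3 h4 h5 h6
    · exact ⟨⟨1, by omega⟩, by simp [dg]; omega⟩
    · exact ⟨⟨1, by omega⟩, by simp [dg]; omega⟩
    · exact ⟨⟨⟨1, by omega⟩, by simp [dg]; omega⟩,
        ⟨⟨0, by omega⟩, by simp [dg]; omega⟩⟩
    · have z : ∀ u, u < n → (dg n t u = 2 ∨ dg n t u = 3) → u = 0 := by
        intro u hu
        unfold dg
        split_ifs <;> omega
      refine ⟨fun u v hu hv => Fin.ext ((z u u.2 hu).trans (z v v.2 hv).symm), ?_⟩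
      by_cases h8 : n = 8
      · exact Or.inl h8
      · refine Or.inr fun u v ha hu => ?_
        have h0 := z u u.2 hu
        have hv := v.2
        rw [h0] at ha hu
        generalize v.1 = x at ha hv
        have hx : x = 1 ∨ x = 2 ∨ (3 ≤ x ∧ x < 3 + t) := by
          rw [show par t 0 = 1 from rfl] at ha
          obtain ⟨y, hy, hy'⟩ : ∃ y, par t x = y ∧ (1 = x ∨ y = 0) := ⟨_, rfl, ha⟩
          unfold par at hy
          split_ifs at hy <;> omega
        rw [show dg n t 0 = 2 + (min n (3 + t) - 3) from rfl] at hu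
        have ht' : t = 0 ∨ t = 1 := by omega
        unfold dg
        rcases ht' with rfl | rfl <;> split_ifs <;> omega

theorem result (n : ℕ) (hn : 3 ≤ n) :
    IsGreatest {x : ℝ | ∃ G : SimpleGraph (Fin n), Uni G ∧ eus G = x} (M n) ∧
      ∀ G : SimpleGraph (Fin n), Uni G → (eus G = M n ↔ Ext G) := by
  refine ⟨⟨?_, ?_⟩, fun G hG => ⟨fun h => ?_, (main hn G hG).1⟩⟩
  · obtain ⟨G, h1, h2⟩ := ex hn
    exact ⟨G, h1, (main hn G h1).1 h2⟩
  · rintro x ⟨G, hG, rfl⟩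
    by_cases h : Ext G
    · exact ((main hn G hG).1 h).le
    · exact ((main hn G hG).2 h).le
  · by_contra hx
    exact ((main hn G hG).2 hx).ne h

end Pool.Agent.Results.MP_b3e27a_co.Max
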